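import Pool.Agent.H629.TA.Stm

/-!
# Project TA (MP_751612_pr), statement S_PV: conditional variances
-/

set_option autoImplicit false

namespace Pool.Agent.H117.TA.PV

open Finset Pool.Agent.H629.TA

theorem var_le (hSR : S_SR) {m : ℕ} {δ : ℝ} (hm : 1 ≤ m) (hδ : 0 < δ) {k : ℕ} {h : Hist m}
    (hk : 2 ≤ k) (hv : Valid m h k) (f : Hist m → ℝ) (μ c : ℝ) (hμ : step m δ k f h = μ) :
    step m δ k (fun h' => (f h' - μ) ^ 2) h ≤ step m δ k (fun h' => (f h' - c) ^ 2) h := by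
  obtain ⟨hc, ha, hs, -, -⟩ := hSR m δ hm hδ k h hk hv
  have e : (fun h' : Hist m => (f h' - c) ^ 2) = fun h' =>
      (fun h' : Hist m => (f h' - μ) ^ 2) h' +
        (fun h' : Hist m => (fun h' : Hist m => (2 * (μ - c)) * f h') h' +
          (fun _ : Hist m => c ^ 2 - μ ^ 2) h') h' := by
    funext h'
    ring
  rw [e, ha, ha, hs, hc, hμ]
  nlinarith [sq_nonneg (μ - c)]

theorem cnt_le {m : ℕ} (j : Fin m → ℕ) (a : ℕ) : cnt j a ≤ m := by
  unfold cnt
  refine le_trans (card_le_univ _) ?_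
  simp

theorem t_PV : S_DR → S_SQ → S_NW → S_TW → S_SR → S_P2 → S_PV := by
  intro hDR hSQ hNW hTW hSR hP2 m δ hm hδ
  have hm1 : 1 ≤ m := by omega
  have hmR : (2 : ℝ) ≤ m := by exact_mod_cast hm
  have hm0 : (0 : ℝ) ≤ m := by linarith
  refine ⟨(m : ℝ) ^ 2 * (9 + 8 * (m + δ) ^ 2), by positivity, ?_⟩
  intro k h hk hv
  obtain ⟨hT1, hT2, hT3⟩ := hTW m k h hk hv
  have hsum := hT2 δ
  obtain ⟨x, hx⟩ : ∃ x : ℕ → ℝ, x = wt m δ h k := ⟨_, rfl⟩
  obtain ⟨L, hL⟩ : ∃ L, L = tot m δ k := ⟨_, rfl⟩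
  have hxm : ∀ a ∈ Icc 1 k, (m : ℝ) ≤ x a := by
    intro a ha
    have h1 : (m : ℝ) ≤ deg m h k a := by exact_mod_cast hT3 a ha
    rw [hx]
    unfold wt
    linarith
  have hxdeg : ∀ a, (∑ b ∈ Icc 1 k, (mult m h a b : ℝ)) ≤ x a := by
    intro a
    rw [hx]
    unfold wt deg
    push_cast
    linarith
  have hx0 : ∀ a ∈ Icc 1 k, 0 ≤ x a := fun a ha => le_trans hm0 (hxm a ha)
  have hLsum : ∑ a ∈ Icc 1 k, x a = L := by rw [hx, hL]; exact hsum
  have hL0 : 0 < L := by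
    rw [← hLsum]
    have h1 : 1 ∈ Icc 1 k := mem_Icc.2 ⟨le_rfl, by omega⟩
    have h2 := single_le_sum hx0 h1
    have h3 := hxm 1 h1
    linarith
  have hp0 : ∀ a ∈ Icc 1 k, 0 ≤ x a / L := fun a ha => div_nonneg (hx0 a ha) hL0.le
  have hp1 : ∑ a ∈ Icc 1 k, x a / L = 1 := by
    rw [← sum_div, hLsum, div_self hL0.ne']
  have hstep : ∀ f : Hist m → ℝ, step m δ k f h =
      draw m (Icc 1 k) (fun a => x a / L) (fun j => f (Function.update h (k + 1) j)) := by
    intro f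
    rw [hx, hL]
    rfl
  obtain ⟨-, -, -, hmono, -, -⟩ := hDR m (Icc 1 k) (fun a => x a / L)
  have hSQ' := hSQ m (Icc 1 k) (fun a => x a / L) hp0 hp1
  obtain ⟨hP1, hP1', -⟩ := hP2 m δ hm hδ k h hk hv
  have hS2 : S2 m δ k h = ∑ a ∈ Icc 1 k, x a ^ 2 := by rw [hx]; rfl
  have hS3 : S3 m δ k h = ∑ a ∈ Icc 1 k, x a * (x a + 1) * (x a + 2) := by rw [hx]; rfl
  have hWW : WW m δ k h = (1 / 2) * ∑ a ∈ Icc 1 k, ∑ b ∈ Icc 1 k,
      (mult m h a b : ℝ) * (x a * x b) := by rw [hx]; rfl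
  have hVV : VV m δ k h = ∑ a ∈ Icc 1 k, ∑ b ∈ Icc 1 k,
      (mult m h a b : ℝ) * ((x a * (x a + 1)) * (x b * (x b + 1))) := by rw [hx]; rfl
  have hcm : ∀ (j : Fin m → ℕ) (a : ℕ), (cnt j a : ℝ) ≤ m := fun j a => by
    exact_mod_cast cnt_le j a
  have hc0 : ∀ (j : Fin m → ℕ) (a : ℕ), (0 : ℝ) ≤ cnt j a := fun j a => Nat.cast_nonneg _
  have hcx : ∀ (j : Fin m → ℕ), ∀ a ∈ Icc 1 k, (cnt j a : ℝ) ≤ x a := fun j a ha =>
    le_trans (hcm j a) (hxm a ha)
  -- cubes
  have hcube : ∑ a ∈ Icc 1 k, x a ^ 3 ≤ S3 m δ k h := by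
    rw [hS3]
    apply sum_le_sum
    intro a ha
    have h0 := hx0 a ha
    have h1 : 0 ≤ x a ^ 2 := sq_nonneg _
    nlinarith
  have hS30 : 0 ≤ S3 m δ k h := by
    rw [hS3]
    apply sum_nonneg
    intro a ha
    have h0 := hx0 a ha
    positivity
  have hVV0 : 0 ≤ VV m δ k h := by
    rw [hVV]
    apply sum_nonneg
    intro a ha
    apply sum_nonneg
    intro b hb
    have h0 := hx0 a ha
    have h1 := hx0 b hb
    positivity
  constructor
  · -- the sum of squares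
    refine le_trans (var_le hSR hm1 hδ hk hv _ _ (S2 m δ k h + (m + δ) ^ 2) hP1) ?_
    rw [hstep]
    have h1 : draw m (Icc 1 k) (fun a => x a / L) (fun j =>
        (S2 m δ (k + 1) (Function.update h (k + 1) j) - (S2 m δ k h + (m + δ) ^ 2)) ^ 2) ≤
        draw m (Icc 1 k) (fun a => x a / L) (fun j =>
          (∑ a ∈ Icc 1 k, (cnt j a : ℝ) * (3 * x a)) ^ 2) := by
      apply hmono _ _ hp0
      intro j hj
      obtain ⟨hN, -⟩ := hNW m k δ h j hk hj
      rw [hN, hS2, ← hx]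
      have e : ∑ a ∈ Icc 1 k, (x a + (cnt j a : ℝ)) ^ 2 + (m + δ) ^ 2 -
          (∑ a ∈ Icc 1 k, x a ^ 2 + (m + δ) ^ 2) =
          ∑ a ∈ Icc 1 k, (cnt j a : ℝ) * (2 * x a + cnt j a) := by
        have e2 : ∑ a ∈ Icc 1 k, (x a + (cnt j a : ℝ)) ^ 2 = ∑ a ∈ Icc 1 k, x a ^ 2 +
            ∑ a ∈ Icc 1 k, (cnt j a : ℝ) * (2 * x a + cnt j a) := by
          rw [← sum_add_distrib]
          exact sum_congr rfl fun a _ => by ring
        rw [e2]
        ring
      rw [e]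
      apply pow_le_pow_left₀
      · apply sum_nonneg
        intro a ha
        have h0 := hx0 a ha
        have h2 := hc0 j a
        positivity
      · apply sum_le_sum
        intro a ha
        apply mul_le_mul_of_nonneg_left _ (hc0 j a)
        have h0 := hcx j a ha
        linarith
    refine le_trans h1 (le_trans (hSQ' _) ?_)
    have e3 : (m : ℝ) ^ 2 * ∑ a ∈ Icc 1 k, x a / L * (3 * x a) ^ 2 =
        (m : ℝ) ^ 2 * 9 * ((∑ a ∈ Icc 1 k, x a ^ 3) / L) := by
      rw [sum_div, mul_sum, mul_sum]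
      exact sum_congr rfl fun a _ => by ring
    rw [e3, ← hL]
    have h4 : (∑ a ∈ Icc 1 k, x a ^ 3) / L ≤ S3 m δ k h / L :=
      div_le_div_of_nonneg_right hcube hL0.le
    have h5 : 0 ≤ S3 m δ k h / L := div_nonneg hS30 hL0.le
    have h6 : (m : ℝ) ^ 2 * 9 ≤ (m : ℝ) ^ 2 * (9 + 8 * (m + δ) ^ 2) := by
      apply mul_le_mul_of_nonneg_left _ (sq_nonneg _)
      have := sq_nonneg ((m : ℝ) + δ)
      linarith
    calc (m : ℝ) ^ 2 * 9 * ((∑ a ∈ Icc 1 k, x a ^ 3) / L)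
        ≤ (m : ℝ) ^ 2 * 9 * (S3 m δ k h / L) := mul_le_mul_of_nonneg_left h4 (by positivity)
      _ ≤ (m : ℝ) ^ 2 * (9 + 8 * (m + δ) ^ 2) * (S3 m δ k h / L) :=
          mul_le_mul_of_nonneg_right h6 h5
  · -- the weighted number of edges
    refine le_trans (var_le hSR hm1 hδ hk hv _ _ (WW m δ k h) hP1') ?_
    rw [hstep]
    obtain ⟨y, hy⟩ : ∃ y : ℕ → ℝ, y = fun a => ∑ b ∈ Icc 1 k, (mult m h a b : ℝ) * x b := ⟨_, rfl⟩
    have hsym : ∀ a b, mult m h a b = mult m h b a := by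
      intro a b
      unfold mult
      by_cases hab : a = b
      · rw [if_pos hab, if_pos hab.symm]
      · rw [if_neg hab, if_neg (Ne.symm hab), max_comm a b, min_comm a b]
    have hy0 : ∀ a, 0 ≤ y a := by
      intro a
      rw [hy]
      apply sum_nonneg
      intro b hb
      have h0 := hx0 b hb
      positivity
    have h1 : draw m (Icc 1 k) (fun a => x a / L) (fun j =>
        (WW m δ (k + 1) (Function.update h (k + 1) j) - WW m δ k h) ^ 2) ≤
        draw m (Icc 1 k) (fun a => x a / L) (fun j =>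
          (∑ a ∈ Icc 1 k, (cnt j a : ℝ) * (3 / 2 * y a + 2 * (m + δ) * x a)) ^ 2) := by
      apply hmono _ _ hp0
      intro j hj
      obtain ⟨-, -, hN, -⟩ := hNW m k δ h j hk hj
      rw [hN, hWW, ← hx]
      have e : (1 / 2) * ∑ a ∈ Icc 1 k, ∑ b ∈ Icc 1 k, (mult m h a b : ℝ) *
            ((x a + (cnt j a : ℝ)) * (x b + (cnt j b : ℝ))) +
          (m + δ) * ∑ a ∈ Icc 1 k, (cnt j a : ℝ) * (x a + (cnt j a : ℝ)) -
          (1 / 2) * ∑ a ∈ Icc 1 k, ∑ b ∈ Icc 1 k, (mult m h a b : ℝ) * (x a * x b) =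
          (1 / 2) * ∑ a ∈ Icc 1 k, ∑ b ∈ Icc 1 k, (mult m h a b : ℝ) *
            (x a * cnt j b + x b * cnt j a + cnt j a * cnt j b) +
          (m + δ) * ∑ a ∈ Icc 1 k, (cnt j a : ℝ) * (x a + (cnt j a : ℝ)) := by
        have e2 : ∑ a ∈ Icc 1 k, ∑ b ∈ Icc 1 k, (mult m h a b : ℝ) *
            ((x a + (cnt j a : ℝ)) * (x b + (cnt j b : ℝ))) =
            ∑ a ∈ Icc 1 k, ∑ b ∈ Icc 1 k, (mult m h a b : ℝ) * (x a * x b) +
            ∑ a ∈ Icc 1 k, ∑ b ∈ Icc 1 k, (mult m h a b : ℝ) *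
              (x a * cnt j b + x b * cnt j a + cnt j a * cnt j b) := by
          rw [← sum_add_distrib]
          refine sum_congr rfl fun a _ => ?_
          rw [← sum_add_distrib]
          exact sum_congr rfl fun b _ => by ring
        rw [e2]
        ring
      rw [e]
      have hn1 : 0 ≤ ∑ a ∈ Icc 1 k, ∑ b ∈ Icc 1 k, (mult m h a b : ℝ) *
            (x a * cnt j b + x b * cnt j a + cnt j a * cnt j b) := by
        apply sum_nonneg
        intro a ha
        apply sum_nonneg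
        intro b hb
        have h0 := hx0 a ha
        have h2 := hx0 b hb
        have h3 := hc0 j a
        have h4 := hc0 j b
        positivity
      have hn2 : 0 ≤ ∑ a ∈ Icc 1 k, (cnt j a : ℝ) * (x a + (cnt j a : ℝ)) := by
        apply sum_nonneg
        intro a ha
        have h0 := hx0 a ha
        have h3 := hc0 j a
        positivity
      have hu1 : ∑ a ∈ Icc 1 k, ∑ b ∈ Icc 1 k, (mult m h a b : ℝ) *
            (x a * cnt j b + x b * cnt j a + cnt j a * cnt j b) ≤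
          3 * ∑ a ∈ Icc 1 k, (cnt j a : ℝ) * y a := by
        have s1 : ∑ a ∈ Icc 1 k, (cnt j a : ℝ) * y a =
            ∑ a ∈ Icc 1 k, ∑ b ∈ Icc 1 k, (mult m h a b : ℝ) * (x b * cnt j a) := by
          refine sum_congr rfl fun a _ => ?_
          rw [hy, mul_sum]
          exact sum_congr rfl fun b _ => by ring
        have s2 : ∑ a ∈ Icc 1 k, (cnt j a : ℝ) * y a =
            ∑ a ∈ Icc 1 k, ∑ b ∈ Icc 1 k, (mult m h a b : ℝ) * (x a * cnt j b) := by
          rw [s1, sum_comm]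
          refine sum_congr rfl fun a _ => sum_congr rfl fun b _ => ?_
          rw [hsym b a]
        have s3 : ∑ a ∈ Icc 1 k, ∑ b ∈ Icc 1 k, (mult m h a b : ℝ) *
            (x a * cnt j b + x b * cnt j a + cnt j a * cnt j b) ≤
            ∑ a ∈ Icc 1 k, ∑ b ∈ Icc 1 k, (3 / 2 * ((mult m h a b : ℝ) * (x a * cnt j b)) +
              3 / 2 * ((mult m h a b : ℝ) * (x b * cnt j a))) := by
          apply sum_le_sum
          intro a ha
          apply sum_le_sum
          intro b hb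
          have h0 := hcx j a ha
          have h2 := hcx j b hb
          have h3 := hc0 j a
          have h4 := hc0 j b
          have h5 : (cnt j a : ℝ) * cnt j b ≤ 1 / 2 * (x a * cnt j b) + 1 / 2 * (x b * cnt j a) := by
            nlinarith [mul_nonneg (sub_nonneg.2 h0) h4, mul_nonneg (sub_nonneg.2 h2) h3]
          have h6 : (0 : ℝ) ≤ mult m h a b := Nat.cast_nonneg _
          nlinarith [mul_le_mul_of_nonneg_left h5 h6]
        refine le_trans s3 (le_of_eq ?_)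
        simp only [sum_add_distrib, ← mul_sum]
        rw [← s1, ← s2]
        ring
      have hu2 : ∑ a ∈ Icc 1 k, (cnt j a : ℝ) * (x a + (cnt j a : ℝ)) ≤
          2 * ∑ a ∈ Icc 1 k, (cnt j a : ℝ) * x a := by
        rw [mul_sum]
        apply sum_le_sum
        intro a ha
        have h0 := hcx j a ha
        have h3 := hc0 j a
        nlinarith
      have hmd : 0 ≤ (m : ℝ) + δ := by linarith
      have e5 : ∑ a ∈ Icc 1 k, (cnt j a : ℝ) * (3 / 2 * y a + 2 * (m + δ) * x a) =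
          3 / 2 * ∑ a ∈ Icc 1 k, (cnt j a : ℝ) * y a +
          2 * (m + δ) * ∑ a ∈ Icc 1 k, (cnt j a : ℝ) * x a := by
        rw [mul_sum, mul_sum, ← sum_add_distrib]
        exact sum_congr rfl fun a _ => by ring
      rw [e5]
      apply pow_le_pow_left₀
      · have := mul_nonneg hmd hn2
        linarith
      · have := mul_le_mul_of_nonneg_left hu2 hmd
        linarith
    refine le_trans h1 (le_trans (hSQ' _) ?_)
    -- Cauchy-Schwarz
    have hCS : ∑ a ∈ Icc 1 k, x a * y a ^ 2 ≤ VV m δ k h := by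
      rw [hVV]
      apply sum_le_sum
      intro a ha
      have hcs : y a ^ 2 ≤ x a * ∑ b ∈ Icc 1 k, (mult m h a b : ℝ) * x b ^ 2 := by
        have h2 := sum_sq_le_sum_mul_sum_of_sq_le_mul (Icc 1 k)
          (r := fun b => (mult m h a b : ℝ) * x b) (f := fun b => (mult m h a b : ℝ))
          (g := fun b => (mult m h a b : ℝ) * x b ^ 2)
          (fun b _ => Nat.cast_nonneg _) (fun b _ => by positivity) (fun b _ => le_of_eq (by ring))
        rw [hy]
        refine le_trans h2 ?_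
        apply mul_le_mul_of_nonneg_right (hxdeg a)
        apply sum_nonneg
        intro b _
        positivity
      have h0 := hx0 a ha
      have h3 := mul_le_mul_of_nonneg_left hcs h0
      refine le_trans h3 ?_
      rw [← mul_assoc, mul_sum]
      apply sum_le_sum
      intro b hb
      have h4 := hx0 b hb
      have h6 : (0 : ℝ) ≤ mult m h a b := Nat.cast_nonneg _
      have h7 : x a * x a * x b ^ 2 ≤ (x a * (x a + 1)) * (x b * (x b + 1)) := by
        have h8 : x a * x a ≤ x a * (x a + 1) := by nlinarith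
        have h9 : x b ^ 2 ≤ x b * (x b + 1) := by nlinarith
        have h10 : 0 ≤ x b ^ 2 := sq_nonneg _
        have h11 : 0 ≤ x a * (x a + 1) := by positivity
        exact mul_le_mul h8 h9 h10 h11
      nlinarith [mul_le_mul_of_nonneg_left h7 h6]
    have h4 : ∑ a ∈ Icc 1 k, x a / L * (3 / 2 * y a + 2 * (m + δ) * x a) ^ 2 ≤
        (9 / 2 * ∑ a ∈ Icc 1 k, x a * y a ^ 2 + 8 * (m + δ) ^ 2 * ∑ a ∈ Icc 1 k, x a ^ 3) / L := by
      rw [mul_sum, mul_sum, ← sum_add_distrib, sum_div]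
      apply sum_le_sum
      intro a ha
      rw [div_mul_eq_mul_div]
      apply div_le_div_of_nonneg_right _ hL0.le
      have h0 := hx0 a ha
      have h5 : (3 / 2 * y a + 2 * (m + δ) * x a) ^ 2 ≤
          9 / 2 * y a ^ 2 + 8 * (m + δ) ^ 2 * x a ^ 2 := by
        nlinarith [sq_nonneg (3 / 2 * y a - 2 * (m + δ) * x a)]
      have h6 := mul_le_mul_of_nonneg_left h5 h0
      refine le_trans h6 (le_of_eq ?_)
      ring
    have h5 : (9 / 2 * ∑ a ∈ Icc 1 k, x a * y a ^ 2 +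
        8 * (m + δ) ^ 2 * ∑ a ∈ Icc 1 k, x a ^ 3) / L ≤
        (9 + 8 * (m + δ) ^ 2) * ((VV m δ k h + S3 m δ k h) / L) := by
      rw [← mul_div_assoc]
      apply div_le_div_of_nonneg_right _ hL0.le
      have h6 : 0 ≤ ((m : ℝ) + δ) ^ 2 := sq_nonneg _
      nlinarith [mul_le_mul_of_nonneg_left hcube h6, mul_nonneg h6 hVV0]
    calc (m : ℝ) ^ 2 * ∑ a ∈ Icc 1 k, x a / L * (3 / 2 * y a + 2 * (m + δ) * x a) ^ 2
        ≤ (m : ℝ) ^ 2 * ((9 + 8 * (m + δ) ^ 2) * ((VV m δ k h + S3 m δ k h) / L)) :=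
          mul_le_mul_of_nonneg_left (le_trans h4 h5) (sq_nonneg _)
      _ = (m : ℝ) ^ 2 * (9 + 8 * (m + δ) ^ 2) * ((VV m δ k h + S3 m δ k h) / tot m δ k) := by
          rw [hL]; ring

end Pool.Agent.H117.TA.PV
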